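import Mathlib
import Pool.Agent.R828.ProdBal

/-!
# Products of bo-bounded balleans are bo-bounded (MP_34945e_gt)
-/

namespace Pool.Agent.Results.MP_34945e_gt.ProductBoBounded

open Set

universe u v

/-- A ballean `(X, 𝓔)`. -/
structure Ballean (X : Type u) where
  /-- the family of entourages -/
  ent : Set (Set (X × X))
  /-- every entourage contains the diagonal -/
  diag : ∀ E ∈ ent, ∀ x, (x, x) ∈ E
  /-- `E ∘ F⁻¹ ⊆ D` for some entourage `D` -/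
  comp : ∀ E ∈ ent, ∀ F ∈ ent, ∃ D ∈ ent, ∀ x y z, (x, y) ∈ E → (z, y) ∈ F → (x, z) ∈ D
  /-- the union of all entourages is `X × X` -/
  cover : ⋃₀ ent = Set.univ

/-- `E[x]`. -/
def ball {X : Type u} (E : Set (X × X)) (x : X) : Set X := {y | (x, y) ∈ E}

namespace Ballean

variable {X : Type u} {Y : Type v}

/-- Bounded sets. -/
def Bounded (A : Ballean X) (S : Set X) : Prop := ∃ E ∈ A.ent, ∃ x, S ⊆ ball E x

/-- Boundedly oscillating functions. -/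
def BoundedlyOsc (A : Ballean X) (f : X → ℝ) : Prop :=
  ∃ C : ℝ, 0 < C ∧ ∀ E ∈ A.ent, ∃ B, A.Bounded B ∧
    ∀ x, x ∉ B → Metric.ediam (f '' ball E x) < ENNReal.ofReal C

/-- bo-bounded balleans. -/
def BoBounded (A : Ballean X) : Prop :=
  ∀ f : X → ℝ, A.BoundedlyOsc f → ∃ B, A.Bounded B ∧ ∃ M : ℝ, ∀ x, x ∉ B → |f x| ≤ M

/-- The product ballean, with entourages
`{((x,y),(x',y')) : (x,x') ∈ E, (y,y') ∈ F}`, `E ∈ 𝓔_X`, `F ∈ 𝓔_Y`. -/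
def prod (A : Ballean X) (B : Ballean Y) : Ballean (X × Y) where
  ent := {G | ∃ E ∈ A.ent, ∃ F ∈ B.ent, G = {p | (p.1.1, p.2.1) ∈ E ∧ (p.1.2, p.2.2) ∈ F}}
  diag := by
    rintro _ ⟨E, hE, F, hF, rfl⟩ p
    exact ⟨A.diag E hE _, B.diag F hF _⟩
  comp := by
    rintro _ ⟨E, hE, F, hF, rfl⟩ _ ⟨E', hE', F', hF', rfl⟩
    obtain ⟨D, hD, h⟩ := A.comp E hE E' hE'
    obtain ⟨D', hD', h'⟩ := B.comp F hF F' hF'
    exact ⟨_, ⟨D, hD, D', hD', rfl⟩, fun p q r h1 h2 =>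
      ⟨h _ _ _ h1.1 h2.1, h' _ _ _ h1.2 h2.2⟩⟩
  cover := by
    apply Set.eq_univ_of_forall
    rintro ⟨⟨x, y⟩, ⟨x', y'⟩⟩
    have h1 : (x, x') ∈ ⋃₀ A.ent := by rw [A.cover]; trivial
    have h2 : (y, y') ∈ ⋃₀ B.ent := by rw [B.cover]; trivial
    obtain ⟨E, hE, h1⟩ := h1
    obtain ⟨F, hF, h2⟩ := h2
    exact ⟨_, ⟨E, hE, F, hF, rfl⟩, h1, h2⟩

/-- Translation to the internal structure. -/
def toBal (A : Ballean X) : R828.Bal X where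
  ent := A.ent
  diag := A.diag
  comp := A.comp
  conn := by
    intro x y
    have h : (x, y) ∈ ⋃₀ A.ent := by rw [A.cover]; trivial
    obtain ⟨E, hE, h⟩ := h
    exact ⟨E, hE, h⟩

theorem bd_iff (A : Ballean X) (S : Set X) : A.toBal.Bd S ↔ A.Bounded S := by
  constructor
  · rintro ⟨E, hE, x, hx⟩
    exact ⟨E, hE, x, fun y hy => hx y hy⟩
  · rintro ⟨E, hE, x, hx⟩
    exact ⟨E, hE, x, fun y hy => hx hy⟩

theorem abs_of_ediam {S : Set ℝ} {c : ℝ} (hc : 0 ≤ c) (h : Metric.ediam S ≤ ENNReal.ofReal c)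
    {a b : ℝ} (ha : a ∈ S) (hb : b ∈ S) : |a - b| ≤ c := by
  have h1 := (Metric.edist_le_ediam_of_mem ha hb).trans h
  rw [edist_dist, ENNReal.ofReal_le_ofReal_iff hc, Real.dist_eq] at h1
  exact h1

theorem boundedlyOsc_of (A : Ballean X) {g : X → ℝ} {C : ℝ} (hC : 0 < C)
    (h : ∀ E ∈ A.ent, R828.Osc A.toBal E g C) : A.BoundedlyOsc g := by
  refine ⟨3 * C, by positivity, fun E hE => ?_⟩
  obtain ⟨S, hS, h1⟩ := h E hE
  refine ⟨S, (A.bd_iff S).1 hS, fun x hx => ?_⟩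
  have h2 : Metric.ediam (g '' ball E x) ≤ ENNReal.ofReal (2 * C) := by
    rw [Metric.ediam_le_iff]
    rintro _ ⟨y, hy, rfl⟩ _ ⟨z, hz, rfl⟩
    rw [edist_dist]
    apply ENNReal.ofReal_le_ofReal
    rw [Real.dist_eq]
    have h3 := h1 x y hx hy
    have h4 := h1 x z hx hz
    rw [abs_le] at *
    constructor <;> linarith [h3.1, h3.2, h4.1, h4.2]
  refine lt_of_le_of_lt h2 ?_
  rw [ENNReal.ofReal_lt_ofReal_iff (by positivity)]
  linarith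

theorem oscP_of (A : Ballean X) (B : Ballean Y) {f : X × Y → ℝ} {C : ℝ} (hC : 0 < C)
    (hf : ∀ E ∈ (A.prod B).ent, ∃ S, (A.prod B).Bounded S ∧
      ∀ x, x ∉ S → Metric.ediam (f '' ball E x) < ENNReal.ofReal C)
    {E : Set (X × X)} (hE : E ∈ A.toBal.ent) {F : Set (Y × Y)} (hF : F ∈ B.toBal.ent) :
    R828.OscP A.toBal B.toBal E F (fun x y => f (x, y)) C := by
  obtain ⟨S, ⟨_, ⟨E', hE', F', hF', rfl⟩, ⟨x₀, y₀⟩, hS⟩, h⟩ := hf _ ⟨E, hE, F, hF, rfl⟩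
  refine ⟨ball E' x₀, ball F' y₀, (A.bd_iff _).2 ⟨E', hE', x₀, subset_rfl⟩,
    (B.bd_iff _).2 ⟨F', hF', y₀, subset_rfl⟩, ?_⟩
  intro x y x' y' hxy hx hy
  have h1 : (x, y) ∉ S := by
    intro h2
    have h3 := hS h2
    rcases hxy with h4 | h4
    · exact h4 h3.1
    · exact h4 h3.2
  exact abs_of_ediam hC.le (h (x, y) h1).le ⟨(x, y), ⟨A.diag E hE x, B.diag F hF y⟩, rfl⟩
    ⟨(x', y'), ⟨hx, hy⟩, rfl⟩

theorem exists_ent_of (A : Ballean X) (hA : A.BoBounded) : ∃ E, E ∈ A.ent := by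
  by_contra h
  obtain ⟨_, ⟨E, hE, _⟩, _⟩ := hA (fun _ => 0) ⟨1, one_pos, fun E hE => absurd ⟨E, hE⟩ h⟩
  exact h ⟨E, hE⟩

end Ballean

open Ballean

/-- **Main result**: the product of two bo-bounded balleans is bo-bounded. -/
theorem result {X : Type u} {Y : Type v} (A : Ballean X) (B : Ballean Y) (hA : A.BoBounded)
    (hB : B.BoBounded) : (A.prod B).BoBounded := by
  rintro f ⟨C, hC, hf⟩
  obtain ⟨E₀, hE₀⟩ := A.exists_ent_of hA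
  obtain ⟨F₀, hF₀⟩ := B.exists_ent_of hB
  obtain ⟨_, ⟨_, _, ⟨x₀, y₀⟩, _⟩, _⟩ := hf _ ⟨E₀, hE₀, F₀, hF₀, rfl⟩
  obtain ⟨S, T, hS, hT, M, hM⟩ := R828.prod_bdd (A := A.toBal) (B := B.toBal)
    (f := fun x y => f (x, y))
    (fun E hE F hF => ⟨C, hC.le, A.oscP_of B hC hf hE hF⟩) (by
      intro g hg
      obtain ⟨S, hS, M, hM⟩ := hA g (A.boundedlyOsc_of hC (fun E hE =>
        hg E hE F₀ hF₀ C hC.le (A.oscP_of B hC hf hE hF₀)))
      exact ⟨S, (A.bd_iff S).2 hS, M, hM⟩) (by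
      intro g hg
      obtain ⟨S, hS, M, hM⟩ := hB g (B.boundedlyOsc_of hC (fun F hF =>
        hg F hF E₀ hE₀ C hC.le (A.oscP_of B hC hf hE₀ hF).flip))
      exact ⟨S, (B.bd_iff S).2 hS, M, hM⟩)
  obtain ⟨E, hE, x, hx⟩ := (A.bd_iff S).1 hS
  obtain ⟨F, hF, y, hy⟩ := (B.bd_iff T).1 hT
  refine ⟨S ×ˢ T, ⟨_, ⟨E, hE, F, hF, rfl⟩, (x, y), ?_⟩, M, ?_⟩
  · rintro ⟨a, b⟩ ⟨ha, hb⟩
    exact ⟨hx ha, hy hb⟩
  · rintro ⟨a, b⟩ hab
    apply hM a b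
    by_contra hcon
    push Not at hcon
    exact hab ⟨hcon.1, hcon.2⟩

end Pool.Agent.Results.MP_34945e_gt.ProductBoBounded
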